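import Mathlib
import Pool.Agent.H16.FV.Blk

set_option autoImplicit false

/-!
# Cographic tangential 2-blocks and the feedback vertex number (MP_aa6b05_co)

By Seymour's theorem Tutte's conjecture says that `M*(P₁₀)` is the only cographic tangential 2-block.
We show that for every `k` there are only finitely many tangential 2-blocks of the form `M*(G)`
where some set of at most `k` vertices of the graph `G` meets all its circuits (except for loops):
they have at most `elementBound k` elements.  More generally each 2-block `M*(G)` of this kind has a
restriction with at most `elementBound k` elements which is a 2-block.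

Proof.  Let `G` be a graph without isthmuses and with a set of at most `k` vertices which meets all
circuits.  Among the contractions `H` of `G` of the same kind such that a nowhere-zero flow of `H`
over the group of order four gives one of `G` take one with as few edges as possible (not counting
loops).  It has no circuits of length two, three or four and no vertices of degree two.  Let `X` be a
set of at most `k` vertices of `H` which meets all circuits.  At most `C(k, 2)` vertices of the forest
`H - X` have two neighbours in `X`; so the forest has few leaves and branching vertices, and if `H` is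
large then there is a long path in which all vertices have degree three and one neighbour in `X`.  By
the pigeonhole principle it has a section in which each type of pairs of consecutive neighbours in
`X` which occurs at all occurs at least `14 C(k + 1, 2) + 8` times (`H16/FV/Pig`), and the contraction
of this section together with its neighbours in `X` is again a contraction as above
(`H16/FV/LEMW`, `H16/FV/Solve`).  This bounds the number of the vertices of `H`, and `H` is simple.
The contraction of edges of `G` is the deletion of elements of `M*(G)`.
-/

namespace Pool.Agent.Results.MP_aa6b05_co.FeedbackVertexBlocks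

open Finset

/-- The incidence vector of the vertex `v` over GF(2): the coordinate of an edge is the number of
its ends which are `v`, modulo 2 (so loops give 0). -/
def star {V E : Type} [DecidableEq V] (src dst : E → V) (v : V) : E → ZMod 2 :=
  fun e => (if src e = v then 1 else 0) + (if dst e = v then 1 else 0)

/-- The vectors `vec e` represent the cographic matroid of the graph: the linear relations between
them are exactly the elements of the cut space, which is spanned by the incidence vectors. -/
def RepresentsCographic {V E : Type} [DecidableEq V] [Fintype E] (src dst : E → V) {n : ℕ}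
    (vec : E → Fin n → ZMod 2) : Prop :=
  ∀ x : E → ZMod 2, ∑ e, x e • vec e = 0 ↔
    x ∈ Submodule.span (ZMod 2) (Set.range (star src dst))

/-- The simple matroid represented by the set `S` of vectors over GF(2) is a 2-block: `S` has no
zero vector and no linear map to the plane over GF(2) is nonzero on all of `S`. -/
def IsTwoBlock {n : ℕ} (S : Set (Fin n → ZMod 2)) : Prop :=
  (0 : Fin n → ZMod 2) ∉ S ∧
    ¬ ∃ L : (Fin n → ZMod 2) →ₗ[ZMod 2] (Fin 2 → ZMod 2), ∀ s ∈ S, L s ≠ 0

/-- `S` represents a tangential 2-block: it is a 2-block, and no proper minor without loops
(contract `C`, keep `T`) is a 2-block. This is the hypothesis of the frozen statement S10691. -/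
def IsTangential {n : ℕ} (S : Set (Fin n → ZMod 2)) : Prop :=
  IsTwoBlock S ∧
    ∀ C T : Set (Fin n → ZMod 2), C ⊆ S → T ⊆ S → T ≠ S →
      (∀ t ∈ T, t ∉ Submodule.span (ZMod 2) C) →
      ∃ L : (Fin n → ZMod 2) →ₗ[ZMod 2] (Fin 2 → ZMod 2),
        (∀ c ∈ C, L c = 0) ∧ ∀ t ∈ T, L t ≠ 0

/-- The degree of `v` in the subgraph with edge set `C` (a loop counts twice). -/
def degree {V E : Type} [DecidableEq V] (src dst : E → V) (C : Finset E) (v : V) : ℕ :=
  ∑ e ∈ C, ((if src e = v then 1 else 0) + (if dst e = v then 1 else 0))

/-- Some set of at most `k` vertices meets all circuits which are not loops: it contains an end of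
an edge of each nonempty set of edges without loops in which all degrees are even. -/
def FeedbackNumberLe {V E : Type} [DecidableEq V] (src dst : E → V) (k : ℕ) : Prop :=
  ∃ X : Finset V, X.card ≤ k ∧
    ∀ C : Finset E, C.Nonempty → (∀ v, Even (degree src dst C v)) →
      ∃ e ∈ C, src e = dst e ∨ src e ∈ X ∨ dst e ∈ X

/-- The bound for the number of the vertices. -/
def vertexBound (k : ℕ) : ℕ :=
  k + 2 * k * (k - 1) * (7 * k ^ 2 + 7 * k + 9) ^ (k * (k + 1) / 2)

/-- The bound for the number of the elements. -/
def elementBound (k : ℕ) : ℕ := (vertexBound k).choose 2

/-- Let `S` be a set of vectors over GF(2) which represents the cographic matroid of a finite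
multigraph in which some set of at most `k` vertices meets all circuits except for loops (parallel
elements are represented by the same vector).  If `S` is a 2-block then some subset of `S` with at
most `elementBound k` elements is a 2-block.  If `S` is a tangential 2-block then `S` has at most
`elementBound k` elements. -/
theorem result (k : ℕ) :
    ∀ (n : ℕ) (S : Set (Fin n → ZMod 2)) (V E : Type) [Fintype V] [DecidableEq V] [Fintype E]
      [DecidableEq E] (src dst : E → V) (vec : E → Fin n → ZMod 2),
      RepresentsCographic src dst vec → Set.range vec = S → FeedbackNumberLe src dst k →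
      (IsTwoBlock S → ∃ T ⊆ S, T.ncard ≤ elementBound k ∧ IsTwoBlock T) ∧
      (IsTangential S → S.ncard ≤ elementBound k) := by
  classical
  intro n S V E _ _ _ _ src dst vec hv hr ⟨X, hX, hM⟩
  have main : IsTwoBlock S → ∃ T ⊆ S, T.ncard ≤ elementBound k ∧ IsTwoBlock T := by
    rintro ⟨h0, hL⟩
    obtain ⟨T, h1, _, h3, h4⟩ := H16.FV.block (s := src) (t := dst) hv hr h0 hL hX hM
    exact ⟨T, h1, h3, fun h => h0 (h1 h), h4⟩
  refine ⟨main, fun h => ?_⟩
  obtain ⟨T, h1, h2, h3, h4⟩ := main h.1
  by_cases hT : T = S
  · rw [← hT]; exact h2
  · exfalso
    obtain ⟨L, _, hL⟩ := h.2 ∅ T (Set.empty_subset _) h1 hT (fun t ht hs => by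
      rw [Submodule.span_empty, Submodule.mem_bot] at hs
      exact h3 (hs ▸ ht))
    exact h4 ⟨L, hL⟩

end Pool.Agent.Results.MP_aa6b05_co.FeedbackVertexBlocks
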