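import Mathlib
import Pool.Agent.H16.FW.Thm
import Pool.Agent.H16.FW.Blk
import Pool.Agent.H16.FW.REL

set_option autoImplicit false

/-!
# Cographic 2-blocks of feedback vertex number at most four (MP_aa6b05_co)

By Seymour's theorem Tutte's conjecture says that `M*(P₁₀)` is the only cographic tangential 2-block
over GF(2), where `P₁₀` is the Petersen graph.  We prove this for the matroids `M*(G)` where some
set of at most four vertices of the graph `G` meets all its circuits (except for loops).  More
precisely such a matroid without loops is a 2-block if and only if `M*(P₁₀)` is a restriction of it.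

Proof.  Take a contraction of `G` with as few edges as possible for which each flow over the group
`F` of order four extends to a flow of `G`.  It has no circuits with less than five edges and all
degrees are at least three.  Let `x₁, ..., x₄` be vertices which meet all circuits, let `v` be a
vertex of the forest which is left, and cut the forest at `v`.  For each piece consider the set of
all vectors in `F⁴` of the sums of the values of the edges between the piece and `x₁, ..., x₄`.  For
a suitable `v` each piece realizes at most 32 vectors, and there are only 504 such local states up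
to symmetry (`FW/Tab`).  A computation with all of their combinations (`FW/Ker`, about 117000
states, checked by the kernel in `FW/K`) shows that a component of the forest either realizes all
vectors which can be needed, and then the graph has a nowhere-zero flow, or that it has few vertices
of odd degree (`FW/Tot`).  So there are at most sixteen vertices of odd degree, and by a theorem of
the library (`FW/L/Main`) there is a nowhere-zero flow or a component which can be contracted to the
Petersen graph.  The contraction of edges of `G` is the deletion of elements of `M*(G)`.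
-/

namespace Pool.Agent.Results.MP_aa6b05_co.FeedbackVertexFourBlocks

open Finset

/-- The incidence vector of the vertex `v` over GF(2): the coordinate of an edge is the number of
its ends which are `v`, modulo 2 (so loops give 0). -/
def star {V E : Type} [DecidableEq V] (src dst : E → V) (v : V) : E → ZMod 2 :=
  fun e => (if src e = v then 1 else 0) + (if dst e = v then 1 else 0)

/-- The vectors `vec e` represent the cographic matroid of the graph: the linear relations between
them are exactly the elements of the cut space, which is spanned by the incidence vectors. -/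
def RepresentsCographic {V E : Type} [DecidableEq V] [Fintype E] (src dst : E → V) {n : ℕ}
    (vec : E → Fin n → ZMod 2) : Prop :=
  ∀ x : E → ZMod 2, ∑ e, x e • vec e = 0 ↔
    x ∈ Submodule.span (ZMod 2) (Set.range (star src dst))

/-- The simple matroid represented by the set `S` of vectors over GF(2) is a 2-block: `S` has no
zero vector and no linear map to the plane over GF(2) is nonzero on all of `S`. -/
def IsTwoBlock {n : ℕ} (S : Set (Fin n → ZMod 2)) : Prop :=
  (0 : Fin n → ZMod 2) ∉ S ∧
    ¬ ∃ L : (Fin n → ZMod 2) →ₗ[ZMod 2] (Fin 2 → ZMod 2), ∀ s ∈ S, L s ≠ 0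

/-- `S` represents a tangential 2-block: it is a 2-block, and no proper minor without loops
(contract `C`, keep `T`) is a 2-block. This is the hypothesis of the frozen statement S10691. -/
def IsTangential {n : ℕ} (S : Set (Fin n → ZMod 2)) : Prop :=
  IsTwoBlock S ∧
    ∀ C T : Set (Fin n → ZMod 2), C ⊆ S → T ⊆ S → T ≠ S →
      (∀ t ∈ T, t ∉ Submodule.span (ZMod 2) C) →
      ∃ L : (Fin n → ZMod 2) →ₗ[ZMod 2] (Fin 2 → ZMod 2),
        (∀ c ∈ C, L c = 0) ∧ ∀ t ∈ T, L t ≠ 0

/-- The degree of `v` in the subgraph with edge set `C` (a loop counts twice). -/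
def degree {V E : Type} [DecidableEq V] (src dst : E → V) (C : Finset E) (v : V) : ℕ :=
  ∑ e ∈ C, ((if src e = v then 1 else 0) + (if dst e = v then 1 else 0))

/-- Some set of at most `k` vertices meets all circuits which are not loops: it contains an end of
an edge of each nonempty set of edges without loops in which all degrees are even. -/
def FeedbackNumberLe {V E : Type} [DecidableEq V] (src dst : E → V) (k : ℕ) : Prop :=
  ∃ X : Finset V, X.card ≤ k ∧
    ∀ C : Finset E, C.Nonempty → (∀ v, Even (degree src dst C v)) →
      ∃ e ∈ C, src e = dst e ∨ src e ∈ X ∨ dst e ∈ X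

/-- The cut space of the Petersen graph: vertices `0, ..., 9`, edges `0, ..., 14`. -/
def petersenCuts : Submodule (ZMod 2) (Fin 15 → ZMod 2) :=
  Submodule.span (ZMod 2) (Set.range (fun v : Fin 10 => fun k : Fin 15 =>
    if (![0,1,2,3,4,5,6,7,8,9,0,1,2,3,4] : Fin 15 → Fin 10) k = v ∨
       (![1,2,3,4,0,7,8,9,5,6,5,6,7,8,9] : Fin 15 → Fin 10) k = v
    then (1 : ZMod 2) else 0))

/-- The set `T` of vectors represents the cographic matroid `M*(P₁₀)` of the Petersen graph: it is
the image of the unit vectors under a linear map whose kernel is the cut space. This is the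
conclusion of the frozen statement S10691. -/
def IsPetersen {n : ℕ} (T : Set (Fin n → ZMod 2)) : Prop :=
  ∃ ψ : (Fin 15 → ZMod 2) →ₗ[ZMod 2] (Fin n → ZMod 2), LinearMap.ker ψ = petersenCuts ∧
    ⇑ψ '' Set.range (fun k : Fin 15 => (Pi.single k (1 : ZMod 2) : Fin 15 → ZMod 2)) = T

/-- Let `S` be a set of vectors over GF(2) which represents the cographic matroid of a finite
multigraph in which some set of at most four vertices meets all circuits except for loops (parallel
elements are represented by the same vector).  Then `S` is a 2-block if and only if it does not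
contain 0 and some subset of `S` represents `M*(P₁₀)`; and if `S` is a tangential 2-block then it
represents `M*(P₁₀)`. -/
theorem result :
    ∀ (n : ℕ) (S : Set (Fin n → ZMod 2)) (V E : Type) [Fintype V] [DecidableEq V] [Fintype E]
      [DecidableEq E] (src dst : E → V) (vec : E → Fin n → ZMod 2),
      RepresentsCographic src dst vec → Set.range vec = S → FeedbackNumberLe src dst 4 →
      (IsTwoBlock S ↔ (0 : Fin n → ZMod 2) ∉ S ∧ ∃ T ⊆ S, IsPetersen T) ∧
      (IsTangential S → IsPetersen S) := by
  intro n S V E _ _ _ _ src dst vec hv hr ⟨X, hX, hM⟩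
  have key : IsTwoBlock S → ∃ T ⊆ S, IsPetersen T ∧ (0 : Fin n → ZMod 2) ∉ T ∧
      ¬ ∃ L : (Fin n → ZMod 2) →ₗ[ZMod 2] (Fin 2 → ZMod 2), ∀ t ∈ T, L t ≠ 0 := by
    rintro ⟨h0, hL⟩
    obtain ⟨c, h1, h2⟩ := H16.FW.blk4 (s := src) (t := dst) H16.FW.fvn4 H16.FW.rel hv hr h0 hL hX hM
    refine ⟨Set.range c, h1, H16.FW.pet_map h2, fun h => h0 (h1 h), ?_⟩
    rintro ⟨L, hL'⟩
    exact H16.FW.pet_block h2 L (fun k => hL' _ ⟨k, rfl⟩)
  refine ⟨⟨fun h => ⟨h.1, ?_⟩, ?_⟩, fun h => ?_⟩
  · obtain ⟨T, h1, h2, _⟩ := key h
    exact ⟨T, h1, h2⟩
  · rintro ⟨h0, T, hT, ψ, hψ, hψT⟩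
    refine ⟨h0, ?_⟩
    rintro ⟨L, hL⟩
    refine H16.FW.pet_block (c := fun k => ψ (Pi.single k 1)) (fun x => ?_) L (fun k => ?_)
    · have h1 : ∑ k, x k • ψ (Pi.single k 1) = ψ x := by
        have h2 : x = ∑ k, x k • (Pi.single k (1 : ZMod 2) : Fin 15 → ZMod 2) := by
          funext j
          simp [Finset.sum_apply, Pi.single_apply]
        conv_rhs => rw [h2]
        rw [map_sum]
        exact sum_congr rfl fun k _ => (map_smul ψ _ _).symm
      rw [h1, ← LinearMap.mem_ker, hψ]
      exact Iff.rfl
    · apply hL
      apply hT
      rw [← hψT]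
      exact ⟨_, ⟨k, rfl⟩, rfl⟩
  · obtain ⟨T, h1, h2, h3, h4⟩ := key h.1
    by_cases hT : T = S
    · rw [← hT]; exact h2
    · exfalso
      obtain ⟨L, _, hL⟩ := h.2 ∅ T (Set.empty_subset _) h1 hT (fun t ht hs => by
        rw [Submodule.span_empty, Submodule.mem_bot] at hs
        exact h3 (hs ▸ ht))
      exact h4 ⟨L, hL⟩

end Pool.Agent.Results.MP_aa6b05_co.FeedbackVertexFourBlocks
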