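import Mathlib
import Pool.Agent.H16.Cub.Nice
import Pool.Agent.H16.Cub.Tan

set_option autoImplicit false

/-!
# Unavoidable minors of cographic tangential 2-blocks over GF(2) (MP_aa6b05_co)

By Seymour's theorem Tutte's conjecture says that `M*(P₁₀)` is the only cographic tangential
2-block.  For a permutation `τ` of `Fin n` let `P(τ)` be the graph which consists of two disjoint
circuits of length `n` and the perfect matching between them given by `τ`.  We show that every
cographic 2-block over GF(2) has a minor `M*(P(τ))` for some permutation `τ` of five elements; if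
it has no minor `M*(P₁₀)` then `τ` can be chosen such that `P(τ)` has a circuit of length four, and
there is also the minor `M*(Q₃) = M(K₂,₂,₂)`, where `Q₃` is the cube.  So Tutte's conjecture holds
for the cographic matroids without a minor `M(K₂,₂,₂)`, the cycle matroid of the octahedron.

Proof.  Let `G` be a bridgeless multigraph without nowhere-zero 4-flow, minimal for deletion and
contraction.  By theorems of the starting library `G` has girth at least five and minimum degree at
least three, and it is internally 5-connected (`N399.TB.sep4`).  Let `C` be a shortest circuit.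
Each vertex outside `C` has at most one neighbour on `C`, hence `G - C` has minimum degree at least
two; let `D` be a shortest circuit of `G - C` (`Cub/Link.Good.two`).  A separation of order at most
four between `C` and `D` has a side with at most two vertices, and this leads to a circuit with at
most four edges (`Good.small`); so by Menger's theorem there are five disjoint paths between `C` and
`D` (`Good.paths`).  Contracting the paths and the arcs of `C` and `D` one gets `P(τ)` for some `τ`
(`Cub/Arc.exists_lk5`).  This is the Petersen graph or a graph with a circuit of length four; in the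
second case the deletion of a suitable edge of the matching gives a subdivision of the cube
(`Cub/Perm`).
-/

namespace Pool.Agent.Results.MP_aa6b05_co.LinkedCircuitsMinor

/-- The incidence vector of the vertex `v` over GF(2): the coordinate of an edge is the number of
its ends which are `v`, modulo 2 (so loops give 0). -/
def star {V E : Type} [DecidableEq V] (src dst : E → V) (v : V) : E → ZMod 2 :=
  fun e => (if src e = v then 1 else 0) + (if dst e = v then 1 else 0)

/-- The vectors `vec e` represent the cographic matroid of the graph: the linear relations between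
them are exactly the elements of the cut space, which is spanned by the incidence vectors. -/
def RepresentsCographic {V E : Type} [DecidableEq V] [Fintype E] (src dst : E → V) {n : ℕ}
    (vec : E → Fin n → ZMod 2) : Prop :=
  ∀ x : E → ZMod 2, ∑ e, x e • vec e = 0 ↔
    x ∈ Submodule.span (ZMod 2) (Set.range (star src dst))

/-- The simple matroid represented by the set `S` of vectors over GF(2) is a 2-block: `S` has no
zero vector and no linear map to the plane over GF(2) is nonzero on all of `S`. -/
def IsTwoBlock {n : ℕ} (S : Set (Fin n → ZMod 2)) : Prop :=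
  (0 : Fin n → ZMod 2) ∉ S ∧
    ¬ ∃ L : (Fin n → ZMod 2) →ₗ[ZMod 2] (Fin 2 → ZMod 2), ∀ s ∈ S, L s ≠ 0

/-- `S` represents a tangential 2-block: it is a 2-block, and no proper minor without loops
(contract `C`, keep `T`) is a 2-block. This is the hypothesis of the frozen statement S10691. -/
def IsTangential {n : ℕ} (S : Set (Fin n → ZMod 2)) : Prop :=
  IsTwoBlock S ∧
    ∀ C T : Set (Fin n → ZMod 2), C ⊆ S → T ⊆ S → T ≠ S →
      (∀ t ∈ T, t ∉ Submodule.span (ZMod 2) C) →
      ∃ L : (Fin n → ZMod 2) →ₗ[ZMod 2] (Fin 2 → ZMod 2),
        (∀ c ∈ C, L c = 0) ∧ ∀ t ∈ T, L t ≠ 0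

/-- The cut space of the Petersen graph: vertices `0, ..., 9`, edges `0, ..., 14`. -/
def petersenCuts : Submodule (ZMod 2) (Fin 15 → ZMod 2) :=
  Submodule.span (ZMod 2) (Set.range (fun v : Fin 10 => fun k : Fin 15 =>
    if (![0,1,2,3,4,5,6,7,8,9,0,1,2,3,4] : Fin 15 → Fin 10) k = v ∨
       (![1,2,3,4,0,7,8,9,5,6,5,6,7,8,9] : Fin 15 → Fin 10) k = v
    then (1 : ZMod 2) else 0))

/-- The graph `P(τ)` consists of two disjoint circuits of length `n`, with the vertices
`(false, i)` and `(true, i)`, and of the matching with the edges `(false, τ i) (true, i)`.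
These are the first ends of its edges. -/
def firstEnd {n : ℕ} (τ : Fin n → Fin n) : Fin 3 × Fin n → Bool × Fin n
  | (0, i) => (false, i)
  | (1, i) => (true, i)
  | (2, i) => (false, τ i)

/-- The second ends of the edges of `P(τ)`. -/
def secondEnd {n : ℕ} [NeZero n] : Fin 3 × Fin n → Bool × Fin n
  | (0, i) => (false, i + 1)
  | (1, i) => (true, i + 1)
  | (2, i) => (true, i)

/-- The cut space of `P(τ)`; the graph `P(id)` for `n = 4` is the cube. -/
def permutationCuts {n : ℕ} [NeZero n] (τ : Fin n → Fin n) :
    Submodule (ZMod 2) (Fin 3 × Fin n → ZMod 2) :=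
  Submodule.span (ZMod 2) (Set.range (fun v : Bool × Fin n => fun l : Fin 3 × Fin n =>
    if firstEnd τ l = v ∨ secondEnd l = v then (1 : ZMod 2) else 0))

/-- The matroid represented by `S` has a minor whose elements `t l` are indexed by `L` and satisfy
exactly the linear relations in `W` (contract `C`, keep the elements `t l`). -/
def HasMinor {n : ℕ} (S : Set (Fin n → ZMod 2)) {L : Type} [Fintype L]
    (W : Submodule (ZMod 2) (L → ZMod 2)) : Prop :=
  ∃ (C : Set (Fin n → ZMod 2)) (t : L → Fin n → ZMod 2),
    C ⊆ S ∧ Set.range t ⊆ S ∧ Function.Injective t ∧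
    ∀ x : L → ZMod 2, ∑ k, x k • t k ∈ Submodule.span (ZMod 2) C ↔ x ∈ W

/-- `S` has the minor `M*(Q₃) = M(K₂,₂,₂)`, where `Q₃` is the cube, and a minor `M*(P(τ))` where
`τ` is a permutation of five elements for which `P(τ)` has a circuit of length four. -/
def HasCubeAndPermutationMinor {n : ℕ} (S : Set (Fin n → ZMod 2)) : Prop :=
  HasMinor S (permutationCuts (id : Fin 4 → Fin 4)) ∧
    ∃ τ : Fin 5 → Fin 5, Function.Injective τ ∧
      (∃ j, τ (j + 1) = τ j + 1 ∨ τ j = τ (j + 1) + 1) ∧ HasMinor S (permutationCuts τ)

/-- Let `S` be a set of vectors over GF(2) which represents the cographic matroid of a graph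
(parallel elements are represented by the same vector).  If `S` is a 2-block and has no minor
`M*(Q₃) = M(K₂,₂,₂)`, or no minor `M*(P(τ))` as above, then `S` has a minor `M*(P₁₀)`, and if `S`
is a tangential 2-block then it is the cographic matroid of the Petersen graph `P₁₀`, in the form of
the frozen statement S10691. -/
theorem result :
    ∀ (n : ℕ) (S : Set (Fin n → ZMod 2)) (V E : Type) [Fintype V] [DecidableEq V] [Fintype E]
      [DecidableEq E] (src dst : E → V) (vec : E → Fin n → ZMod 2),
      RepresentsCographic src dst vec → Set.range vec = S →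
      (IsTwoBlock S → HasMinor S petersenCuts ∨ HasCubeAndPermutationMinor S) ∧
      (IsTangential S → (∃ ψ : (Fin 15 → ZMod 2) →ₗ[ZMod 2] (Fin n → ZMod 2),
        LinearMap.ker ψ = petersenCuts ∧
        ⇑ψ '' Set.range (fun k : Fin 15 => (Pi.single k (1 : ZMod 2) : Fin 15 → ZMod 2)) = S) ∨
          HasCubeAndPermutationMinor S) := by
  classical
  intro n S V E _ _ _ _ src dst vec hv hr
  have hv' : TH676.Blk.RepCo src dst vec := hv
  have main : IsTwoBlock S → HasMinor S petersenCuts ∨ HasCubeAndPermutationMinor S := by
    rintro ⟨hz, hL⟩
    obtain ⟨hbr, hnf⟩ := H16.Cub.blk_nf hv' hr hz hL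
    by_cases hP : TH676.T4.PetMinor src dst
    · exact Or.inl (H16.Cub.has_minor hv' hr H16.Cub.nice_pet (H16.Cub.pet_mnr hP))
    · right
      constructor
      · by_contra hno
        refine hnf (H16.Cub.cls_cube (fun h => hno ?_) hP hbr)
        exact H16.Cub.has_minor hv' hr H16.Cub.nice_cube h
      · by_contra hno
        push Not at hno
        refine hnf (H16.Cub.cls_perm (fun τ h1 h2 h => hno τ h1 h2 ?_) hP hbr)
        exact H16.Cub.has_minor hv' hr (H16.Cub.nice_perm h1) h
  refine ⟨main, fun h => ?_⟩
  rcases main h.1 with h1 | h1
  · left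
    obtain ⟨C, t, hC, ht, -, hx⟩ := h1
    exact H16.Cub.blk_tan h.2 hC ht hx
  · exact Or.inr h1

end Pool.Agent.Results.MP_aa6b05_co.LinkedCircuitsMinor
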