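import Pool.Agent.H79.FF.Lift
import Pool.Agent.H79.LF.Cub_Nice
import Pool.Agent.H79.LF.Cub_Tan

set_option autoImplicit false

/-!
# Cographic 2-blocks over GF(2): sums of order at most four (MP_aa6b05_co)

The class `Tame` (in `Pool.Agent.H79.FF.Defs`) is the least class of finite simple graphs which

* contains the basic graphs: those with at most seventeen vertices which are not isolated, those of
  path-width at most five, those without circuits with more than fifteen vertices, those in which
  some nine vertices meet all edges, those without nine disjoint edges, those in which some five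
  vertices meet all paths with three vertices, and those without a cube minor;
* contains all minors of its members;
* contains a graph `K` if its vertices can be divided into `X`, `Y` and a set `S` with at most four
  elements, such that no edge joins `X` and `Y`, and the graphs `side K X S` and `side K Y S` are in
  the class: the first is the subgraph induced by `X ∪ S` together with `|S| - 2` new vertices and
  all edges which join elements of `S`, new vertices, or an element of `S` and a new vertex.

Theorem. Let `G` be a finite graph, loops and parallel edges allowed, such that the simple graph of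
adjacent pairs of vertices of `G` is in `Tame`. If the cographic matroid `M*(G)` (parallel elements
merged) is a 2-block over GF(2), then it has a minor `M*(P₁₀)`, and if it is a tangential 2-block
then it is `M*(P₁₀)`, in the form of the frozen statement S10691.

Proof. Let `H` be a graph without a Petersen minor and without a nowhere-zero 4-flow which is minimal
under deletion and contraction. `H` is internally 5-connected: of the two sides of a separation of
order `k ≤ 4` one has at most `k - 2` vertices (`N399/TB` of the library). Let `K` be a sum along
`S` of which `H` is a minor. The branch sets which meet `S` are at most four vertices of `H`, which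
separate the branch sets inside of `X` from those inside of `Y`. So at most `|S| - 2` branch sets
are inside of `X`, say. They can be replaced by the new vertices, and every other branch set can
be restricted to `Y ∪ S`, where it remains connected as the elements of `S` are adjacent to each
other. Hence `H` is a minor of `side K Y S`. So the class of graphs which have no such `H` as a minor
is closed under sums and minors, and it contains the basic graphs by the theorems of the library and
by our theorem that `H` has a cube minor.
-/

namespace Pool.Agent.Results.MP_aa6b05_co.SumsOfOrderFour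

open Pool.Agent.H79.FF

/-- The incidence vector of the vertex `v` over GF(2): the coordinate of an edge is the number of
its ends which are `v`, modulo 2 (so loops give 0). -/
def star {V E : Type} [DecidableEq V] (src dst : E → V) (v : V) : E → ZMod 2 :=
  fun e => (if src e = v then 1 else 0) + (if dst e = v then 1 else 0)

/-- The vectors `vec e` represent the cographic matroid of the graph: the linear relations between
them are exactly the elements of the cut space, which is spanned by the incidence vectors. -/
def RepresentsCographic {V E : Type} [DecidableEq V] [Fintype E] (src dst : E → V) {n : ℕ}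
    (vec : E → Fin n → ZMod 2) : Prop :=
  ∀ x : E → ZMod 2, ∑ e, x e • vec e = 0 ↔
    x ∈ Submodule.span (ZMod 2) (Set.range (star src dst))

/-- The simple matroid represented by the set `S` of vectors over GF(2) is a 2-block: `S` has no
zero vector and no linear map to the plane over GF(2) is nonzero on all of `S`. -/
def IsTwoBlock {n : ℕ} (S : Set (Fin n → ZMod 2)) : Prop :=
  (0 : Fin n → ZMod 2) ∉ S ∧
    ¬ ∃ L : (Fin n → ZMod 2) →ₗ[ZMod 2] (Fin 2 → ZMod 2), ∀ s ∈ S, L s ≠ 0

/-- `S` represents a tangential 2-block: it is a 2-block, and no proper minor without loops
(contract `C`, keep `T`) is a 2-block. This is the hypothesis of the frozen statement S10691. -/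
def IsTangential {n : ℕ} (S : Set (Fin n → ZMod 2)) : Prop :=
  IsTwoBlock S ∧
    ∀ C T : Set (Fin n → ZMod 2), C ⊆ S → T ⊆ S → T ≠ S →
      (∀ t ∈ T, t ∉ Submodule.span (ZMod 2) C) →
      ∃ L : (Fin n → ZMod 2) →ₗ[ZMod 2] (Fin 2 → ZMod 2),
        (∀ c ∈ C, L c = 0) ∧ ∀ t ∈ T, L t ≠ 0

/-- The cut space of the Petersen graph: vertices `0, ..., 9`, edges `0, ..., 14`. -/
def petersenCuts : Submodule (ZMod 2) (Fin 15 → ZMod 2) :=
  Submodule.span (ZMod 2) (Set.range (fun v : Fin 10 => fun k : Fin 15 =>
    if (![0,1,2,3,4,5,6,7,8,9,0,1,2,3,4] : Fin 15 → Fin 10) k = v ∨
       (![1,2,3,4,0,7,8,9,5,6,5,6,7,8,9] : Fin 15 → Fin 10) k = v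
    then (1 : ZMod 2) else 0))

/-- The matroid represented by `S` has a minor whose elements `t l` are indexed by `L` and satisfy
exactly the linear relations in `W` (contract `C`, keep the elements `t l`). -/
def HasMinor {n : ℕ} (S : Set (Fin n → ZMod 2)) {L : Type} [Fintype L]
    (W : Submodule (ZMod 2) (L → ZMod 2)) : Prop :=
  ∃ (C : Set (Fin n → ZMod 2)) (t : L → Fin n → ZMod 2),
    C ⊆ S ∧ Set.range t ⊆ S ∧ Function.Injective t ∧
    ∀ x : L → ZMod 2, ∑ k, x k • t k ∈ Submodule.span (ZMod 2) C ↔ x ∈ W

/-- Let `S` be a set of vectors over GF(2) which represents the cographic matroid of a graph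
(parallel elements are represented by the same vector) whose simple graph of adjacent pairs is in
the class `Tame`.  If `S` is a 2-block then it has a minor `M*(P₁₀)`, and if `S` is a tangential
2-block then it is the cographic matroid of the Petersen graph `P₁₀`, in the form of the frozen
statement S10691. -/
theorem result :
    ∀ (n : ℕ) (S : Set (Fin n → ZMod 2)) (V E : Type) [Fintype V] [DecidableEq V] [Fintype E]
      [DecidableEq E] (src dst : E → V) (vec : E → Fin n → ZMod 2),
      RepresentsCographic src dst vec → Set.range vec = S → Tame (under src dst) →
      (IsTwoBlock S → HasMinor S petersenCuts) ∧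
      (IsTangential S → ∃ ψ : (Fin 15 → ZMod 2) →ₗ[ZMod 2] (Fin n → ZMod 2),
        LinearMap.ker ψ = petersenCuts ∧
        ⇑ψ '' Set.range (fun k : Fin 15 => (Pi.single k (1 : ZMod 2) : Fin 15 → ZMod 2)) = S) := by
  classical
  intro n S V E _ _ _ _ src dst vec hv hr hK
  have hv' : TH676.Blk.RepCo src dst vec := hv
  have main : IsTwoBlock S → HasMinor S petersenCuts := by
    rintro ⟨hz, hL⟩
    obtain ⟨hbr, hnf⟩ := H16.Cub.blk_nf hv' hr hz hL
    by_cases hP : TH676.T4.PetMinor src dst
    · exact H16.Cub.has_minor hv' hr H16.Cub.nice_pet (H16.Cub.pet_mnr hP)
    · exact absurd (hK.good.flow hP hbr) hnf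
  refine ⟨main, fun h => ?_⟩
  obtain ⟨C, t, hC, ht, -, hx⟩ := main h.1
  exact H16.Cub.blk_tan h.2 hC ht hx

end Pool.Agent.Results.MP_aa6b05_co.SumsOfOrderFour
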